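import Pool.Agent.Run7.h945.TR.RelCI

/-!
MP_3029eb_ag: ascent of local uniformization, at all valuations and in all dimensions, from a domain
`B` of characteristic `p` to the quotients of the affine spaces `A ^ r` over `B` by finite families
of group schemes of order `p` which act by *replicas* `z ↦ z + θ * g (z) * v` of the translations
`z ↦ z + t * v`, where `v` is an arbitrary vector with coordinates in `B`, and `g` is an arbitrary
polynomial over `B` which is invariant under these translations.

The group schemes are `Spec B[z][θ] / (θ ^ p - b * θ)`, where `b` is also an arbitrary polynomial
invariant under the translations `z ↦ z + t * v`. For `b = 1` they are generated by the automorphisms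
`z ↦ z + g (z) * v` of order `p`, for example transvections `z ↦ z + φ (z) * v` with a linear form `φ`
over `B`, `φ (v) = 0`; their fixed points are the zeros of `g * v`, so the zeros of `g` can be an
arbitrary hypersurface. For `b = 0` they are vector fields `g (z) * ∑ j, v j * ∂/∂z j`.

The hypothesis on `B`: the local rings of the finitely generated birational extensions of `B` admit
local uniformization. By the theorem of Cossart and Piltant (see the problem file) it is satisfied
by all quasi-excellent domains `B` of characteristic `p` and dimension at most three. So in this case
the local rings of the quotients, of dimension at most `3 + r`, admit local uniformization for all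
`r`, all `v`, and all families of `g` and `b`; and the same is true for all domains `A` between the
ring of invariants and its normalization. (For the resolution of these quotients over surfaces, and
over a class of varieties of any dimension with controlled `v`, see `MP_b525bf_ag.ReplicaQuotients`.)

The proof. Let `V` be a valuation ring of the field of fractions of `A` which is centred on the local
ring, and `V₀` its restriction to the field of fractions `K₀` of `B`. There is a local ring `S` in
`V₀` of a finitely generated birational extension of `B` which is regular and contains the quotients
`v j / v i`, where `v i` has minimal value (`exists_base`). The polynomial ring `S[z]` is the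
polynomial ring `Q[z i]` over the polynomial ring `Q` in the `z j - (v j / v i) * z i`, the ring of
invariants of the translations, and the group schemes act by translations of one variable
over `Q`. So the ring of invariants over `S` is a polynomial ring (`rep_rec`). It is contained in `V`,
since the `z j` are integral over the ring of invariants over `B` (`isIntegral_rep`), and
it is a localization of a ring which is finitely generated over the local ring, and normal
(`rel_lu`).

helper945; the theorems that localizations of regular local rings are regular, and that regular domains
are normal, are from the library of helper98.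
-/

set_option autoImplicit false

open Pool.Agent.Run7.h945.TR

namespace Pool.Agent.Results.MP_3029eb_ag.ReplicaQuotientsLU

/-- The local domain `R` admits local uniformization: for every valuation ring `V` of the fraction
field `K` of `R` centred on `R` there is a finitely generated `R`-algebra `B` in `V` whose
localization at the centre `P` of `V` is regular. -/
def AdmitsLocalUniformization (R : Type) [CommRing R] : Prop :=
  ∀ (K : Type) [Field K] [Algebra R K] [IsFractionRing R K] (V : ValuationSubring K),
    (∀ r : R, algebraMap R K r ∈ V) →
    (∀ r : R, r ∈ nonunits R ↔ V.valuation (algebraMap R K r) < 1) →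
    ∃ B : Subalgebra R K, B.FG ∧ (∀ b : B, (b : K) ∈ V) ∧
      ∃ P : Ideal B, ∃ (_ : P.IsPrime),
        (∀ b : B, b ∈ P ↔ V.valuation (b : K) < 1) ∧
        IsRegularLocalRing (Localization.AtPrime P)

/-- The local rings of the finitely generated birational extensions of the domain `B` (the
finitely generated `B`-subalgebras `C` of its field of fractions) admit local uniformization. By the
theorem of Cossart and Piltant this is true for the quasi-excellent domains of characteristic `p` and
dimension at most three. -/
def BirationalModelsUniformizable (B : Type) [CommRing B] [IsDomain B] : Prop :=
  ∀ C : Subalgebra B (FractionRing B), C.FG → ∀ (P : Ideal C) [P.IsPrime],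
    AdmitsLocalUniformization (Localization.AtPrime P)

section defs

variable {B : Type} [CommRing B] {m r : ℕ}

/-- The homomorphism `f (z) ↦ f (z + θ * w (z))` from the polynomial ring `B[z]` in
`z 1, ..., z r` to `B[z][θ]`, for a vector `w` of elements of `B[z]`. -/
noncomputable def shift (w : Fin r → MvPolynomial (Fin r) B) :
    MvPolynomial (Fin r) B →ₐ[B] Polynomial (MvPolynomial (Fin r) B) :=
  MvPolynomial.aeval fun j => Polynomial.C (MvPolynomial.X j) + Polynomial.C (w j) * Polynomial.X

/-- The polynomial `f` in `z` over `B` is invariant under the translations `z ↦ z + t * v` of the
additive group: `f (z + t * v) = f (z)`. -/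
def IsTranslationInvariant (v : Fin r → B) (f : MvPolynomial (Fin r) B) : Prop :=
  shift (fun j => MvPolynomial.C (v j)) f = Polynomial.C f

/-- The polynomial `f` in `z` over `B` is invariant under the action `z ↦ z + θ * w (z)` of the
group scheme with the coordinate ring `B[z][θ] / (θ ^ p - b * θ)`: modulo `θ ^ p - b * θ` one has
`f (z + θ * w (z)) = f (z)`. -/
def IsInvariant (p : ℕ) (b : MvPolynomial (Fin r) B) (w : Fin r → MvPolynomial (Fin r) B)
    (f : MvPolynomial (Fin r) B) : Prop :=
  Polynomial.X ^ p - Polynomial.C b * Polynomial.X ∣ shift w f - Polynomial.C f

/-- The algebra of the polynomials in `z` over `B` which are invariant under the actions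
`z ↦ z + θ * w i (z)` of the group schemes with the coordinate rings
`B[z][θ] / (θ ^ p - b i * θ)`. -/
noncomputable def invariants (p : ℕ) (b : Fin m → MvPolynomial (Fin r) B)
    (w : Fin m → Fin r → MvPolynomial (Fin r) B) : Subalgebra B (MvPolynomial (Fin r) B) where
  carrier := {f | ∀ i, IsInvariant p (b i) (w i) f}
  mul_mem' := fun hf hg i => InvR.mul (hf i) (hg i)
  add_mem' := fun hf hg i => InvR.add (hf i) (hg i)
  algebraMap_mem' := fun a i => InvR.const p (b i) (w i) a

/-- The vector `g (z) * v`. -/
noncomputable def replica (g : MvPolynomial (Fin r) B) (v : Fin r → B) :
    Fin r → MvPolynomial (Fin r) B :=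
  fun j => g * MvPolynomial.C (v j)

end defs

/-- Let `B` be a domain of characteristic `p` such that the local rings of its finitely generated
birational extensions admit local uniformization, for example any quasi-excellent domain of
characteristic `p` and dimension at most three. Let `v` be a vector with coordinates in `B`, and let
`g i` and `b i`, for `i < m`, be polynomials in `z 1, ..., z r` over `B` which are invariant under
the translations `z ↦ z + t * v`, and otherwise arbitrary. Let `C` be the ring of the polynomials
over `B` which are invariant under the actions `z ↦ z + θ * g i (z) * v` of the group schemes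
`Spec B[z][θ] / (θ ^ p - b i * θ)`. Let `A` be a domain which contains `C`, is integral over `C` and
has the same field of fractions (for example `A = C`, or the normalization of `C`). Then every
local ring `R` of `A`, the localization at a prime ideal `q`, admits local uniformization. -/
theorem result (p : ℕ) [Fact p.Prime] (B : Type) [CommRing B] [IsDomain B] [CharP B p]
    (hB : BirationalModelsUniformizable B) (m r : ℕ) (v : Fin r → B)
    (g b : Fin m → MvPolynomial (Fin r) B) (hg : ∀ i, IsTranslationInvariant v (g i))
    (hb : ∀ i, IsTranslationInvariant v (b i))
    (A : Type) [CommRing A] [IsDomain A] [Algebra (invariants p b fun i => replica (g i) v) A]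
    (hinj : Function.Injective (algebraMap (invariants p b fun i => replica (g i) v) A))
    (hint : ∀ a : A, IsIntegral (invariants p b fun i => replica (g i) v) a)
    (hbir : ∀ a : A, ∃ x y : invariants p b fun i => replica (g i) v, y ≠ 0 ∧
      algebraMap (invariants p b fun i => replica (g i) v) A y * a =
        algebraMap (invariants p b fun i => replica (g i) v) A x)
    (q : Ideal A) [q.IsPrime] (R : Type) [CommRing R] [Algebra A R]
    [IsLocalization.AtPrime R q] : AdmitsLocalUniformization R := by
  let l : List (MvPolynomial (Fin r) B × MvPolynomial (Fin r) B) := List.ofFn fun i => (b i, g i)
  have hsh : ∀ f, IsTranslationInvariant v f → Fs v f = Polynomial.C f := fun f hf => hf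
  have hl : ∀ x ∈ l, Fs v x.1 = Polynomial.C x.1 ∧ Fs v x.2 = Polynomial.C x.2 := by
    intro x hx
    obtain ⟨i, rfl⟩ := List.mem_ofFn.1 hx
    exact ⟨hsh _ (hb i), hsh _ (hg i)⟩
  have heq : RI B p v l = invariants p b fun i => replica (g i) v := by
    ext f
    change (∀ x ∈ l, InvR p x.1 (gv x.2 v) f) ↔ (∀ i, IsInvariant p (b i) (replica (g i) v) f)
    rw [List.forall_mem_ofFn_iff]
    rfl
  have key : ∀ (D : Subalgebra B (MvPolynomial (Fin r) B)) [Algebra D A],
      RI B p v l = D → Function.Injective (algebraMap D A) → (∀ a : A, IsIntegral D a) →
      (∀ a : A, ∃ x y : D, y ≠ 0 ∧ algebraMap D A y * a = algebraMap D A x) →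
      AdmitsLocalUniformization R := by
    rintro D _ rfl h1 h2 h3
    exact lu_replicas (p := p) (B := B) (K0 := FractionRing B) hB v l hl
      (algebraMap (RI B p v l) A) h1 h2 h3 q R
  exact key _ heq hinj hint hbir

end Pool.Agent.Results.MP_3029eb_ag.ReplicaQuotientsLU
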