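import Pool.Agent.Results.MP_3029eb_ag.AdmissibleTowersLU
import Pool.Agent.Run7.h360.TA.Affine

/-!
MP_3029eb_ag: local uniformization, in all dimensions and at all valuations, of the local rings of the
varieties with a torus action over the function fields of the class of `AdmissibleTowersLU`, and of the
varieties which are finite and birational over them.

Let `A` be a finitely generated domain over a perfect field `k` of characteristic `p > 0`, graded by
`ℤ ^ r` (so the torus `𝔾_m ^ r` acts on the affine variety `Spec A`), with the fraction field `K`, and let
`F` be the field of the homogeneous fractions of degree zero, which is the field of the rational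
functions on `Spec A` which are invariant under the torus. The starting file `TorusComplexityTwo`
treats the local rings of `A` if `F` is the function field of a surface. Here

* `F` can be any field in the class of admissible pairs `(F, P)` of the starting file
  `AdmissibleTowersLU`, if `P` contains the Laurent monomials of degree zero in homogeneous elements
  of `A`. So the codimension of the general orbits is arbitrary. For example, `F` is the function field of a
  product of any number of surfaces and the invariant Laurent monomials in the homogeneous elements are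
  products of functions on the surfaces; or `F` is the function field of a variety of dimension `c` and
  degree at most `δ`, with `(s δ) ^ 2 ^ (c - 2) < p`, and the invariant Laurent monomials are products of
  polynomials of degree at most `s` in the coordinates (the dimension and the degree of `Spec A` and
  the weights are not bounded); or `F` is the function field of a threefold, by the theorems of
  Cossart, Piltant, Jannsen and Saito (operation `models`);

* it suffices that the Laurent monomials in some homogeneous elements `b i`, over which `A` is integral and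
  which generate `K` over `F`, are in `P`;

* `R` can be any local ring of any domain `B` which is finite over `A` with the same fraction field;
  here `B` need not be graded.

The proof. The degrees of the `b i` generate a free group, and a basis of this group is given by Laurent
monomials `z j` in the `b i`, which are algebraically independent over `F` by the independence of the
degrees; each `b i` is a Laurent monomial in the `z j` times a Laurent monomial of degree zero (`core2`).
So `K = F (z 1, ..., z n)`; log smooth models of `F` for the monomials of degree zero give log smooth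
models of `K` for these monomials and the `z j` (`mod_tower`), on which the `b i` are boundary functions.
The last step is the one of `AdmissibleTowersLU` (starting files).

helper360; built on the library of the starting files (helpers 762, 98, 558, 466, 418 and their teams). For
resolution of singularities see `MP_b525bf_ag.TorusActions`.
-/

set_option autoImplicit false

open Pool.Agent.W558 Pool.Agent.N98 Pool.Agent.Results.MP_3029eb_ag.AdmissibleTowersLU

namespace Pool.Agent.Results.MP_3029eb_ag.TorusActionsAdmissible

/-- The field of the homogeneous fractions of degree zero of the graded domain `A` with the fraction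
field `K`: the field of the rational functions which are invariant under the torus. -/
def invariantField {k A : Type} (K : Type) [Field k] [CommRing A] [IsDomain A] [Algebra k A]
    [Field K] [Algebra k K] [Algebra A K] [IsScalarTower k A K] [IsFractionRing A K] {r : ℕ}
    (𝒜 : (Fin r → ℤ) → Submodule k A) [GradedAlgebra 𝒜] : IntermediateField k K where
  carrier := {x | ∃ d, ∃ a ∈ 𝒜 d, ∃ b ∈ 𝒜 d, b ≠ 0 ∧ x = algebraMap A K a / algebraMap A K b}
  mul_mem' := by
    rintro x y ⟨d, a, ha, b, hb, h0, rfl⟩ ⟨e, a2, ha2, b2, hb2, h20, rfl⟩
    exact ⟨d + e, a * a2, SetLike.mul_mem_graded ha ha2, b * b2, SetLike.mul_mem_graded hb hb2,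
      mul_ne_zero h0 h20, by rw [map_mul, map_mul, div_mul_div_comm]⟩
  add_mem' := by
    rintro x y ⟨d, a, ha, b, hb, h0, rfl⟩ ⟨e, a2, ha2, b2, hb2, h20, rfl⟩
    refine ⟨d + e, a * b2 + b * a2,
      add_mem (SetLike.mul_mem_graded ha hb2) (SetLike.mul_mem_graded hb ha2), b * b2,
      SetLike.mul_mem_graded hb hb2, mul_ne_zero h0 h20, ?_⟩
    rw [div_add_div _ _ (Pool.Agent.Run7.h360.TA.am_ne' h0) (Pool.Agent.Run7.h360.TA.am_ne' h20),
      map_mul, map_add, map_mul, map_mul]
  algebraMap_mem' := by
    intro c
    refine ⟨0, algebraMap k A c, SetLike.algebraMap_mem_graded 𝒜 c, 1,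
      SetLike.one_mem_graded 𝒜, one_ne_zero, ?_⟩
    rw [map_one, div_one, IsScalarTower.algebraMap_apply k A K]
  inv_mem' := by
    rintro x ⟨d, a, ha, b, hb, h0, rfl⟩
    by_cases h : a = 0
    · refine ⟨0, 0, Submodule.zero_mem _, 1, SetLike.one_mem_graded 𝒜, one_ne_zero, ?_⟩
      rw [h, map_zero, zero_div, inv_zero, zero_div]
    · exact ⟨d, b, hb, a, ha, h, by rw [inv_div]⟩

/-- Let `k` be a perfect field of characteristic `p > 0`, let `A` be a finitely generated `k`-algebra
which is a domain and graded by `ℤ ^ r`, with the fraction field `K`, and let `F` be the field of the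
homogeneous fractions of degree zero. Let `b i` be nonzero homogeneous elements of `A` of degree
`w i`, which generate `K` over `F` and over which `A` is integral (for example homogeneous generators of
`A`). Suppose that there is a set `P` of elements of `F` which contains the Laurent monomials
`∏ (b i) ^ (e i)`, `e i` in `ℤ`, of degree zero, such that the pair `(F, P)` is in the class of
admissible pairs of the starting file `AdmissibleTowersLU`; or that `F` has transcendence degree two
over `k` and is the function field of a smooth projective surface. Let `B` be a domain which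
contains `A`, is finite over `A` and has the same fraction field (graded or not). Then all local rings
`R` of `B` admit local uniformization. -/
theorem result (p : ℕ) [Fact p.Prime] (k : Type) [Field k] [PerfectField k] [CharP k p]
    (A : Type) [CommRing A] [IsDomain A] [Algebra k A] [Algebra.FiniteType k A]
    (K : Type) [Field K] [Algebra k K] [Algebra A K] [IsScalarTower k A K] [IsFractionRing A K]
    (r : ℕ) (𝒜 : (Fin r → ℤ) → Submodule k A) [GradedAlgebra 𝒜]
    (m : ℕ) (b : Fin m → A) (w : Fin m → (Fin r → ℤ)) (hb0 : ∀ i, b i ≠ 0)
    (hbw : ∀ i, b i ∈ 𝒜 (w i))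
    (hgen : IntermediateField.adjoin (invariantField K 𝒜)
      (Set.range fun i => algebraMap A K (b i)) = ⊤)
    (hint : ∀ a : A, IsIntegral (Algebra.adjoin k (Set.range b)) a)
    (hF : (∃ P : Set (invariantField K 𝒜), IsAdmissible p k (invariantField K 𝒜) P ∧
        ∀ e : Fin m → ℤ, ∑ i, e i • w i = 0 → ∀ y : invariantField K 𝒜,
          (y : K) = ∏ i, algebraMap A K (b i) ^ e i → y ∈ P) ∨
      (Algebra.trdeg k (invariantField K 𝒜) = 2 ∧ HasModel k (invariantField K 𝒜)))
    (B : Type) [CommRing B] [IsDomain B] [Algebra k B] [Algebra A B] [IsScalarTower k A B]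
    [Module.Finite A B] [Algebra B K] [IsScalarTower A B K] [IsFractionRing B K]
    (q : Ideal B) [q.IsPrime] (R : Type) [CommRing R] [Algebra B R]
    [IsLocalization.AtPrime R q] : AdmitsLocalUniformization R := by
  classical
  obtain ⟨P, hP, hPm⟩ : ∃ P : Set (invariantField K 𝒜),
      IsAdmissible p k (invariantField K 𝒜) P ∧ ∀ e : Fin m → ℤ, ∑ i, e i • w i = 0 →
        ∀ y : invariantField K 𝒜, (y : K) = ∏ i, algebraMap A K (b i) ^ e i → y ∈ P := by
    rcases hF with h | ⟨h1, h2⟩
    · exact h
    · exact ⟨Set.univ, IsAdmissible.surface _ h1 h2, fun _ _ y _ => Set.mem_univ y⟩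
  have hMod := Pool.Agent.Run7.h360.TA.core2 p (invariantField K 𝒜)
    (Pool.Agent.Run7.h360.TA.GF K 𝒜) (fun _ _ _ _ h h' => h.mul h') (fun _ _ h h0 => h.inv h0)
    Pool.Agent.Run7.h360.TA.GF.one (by
      rintro x ⟨e, a, ha, c, hc, hc0, rfl⟩
      rw [zero_add] at ha
      exact ⟨e, a, ha, c, hc, hc0, rfl⟩)
    (fun n z l hl hz hz0 => Pool.Agent.Run7.h360.TA.galgInd (𝒜 := 𝒜) _ (by
      rintro x ⟨e, a, ha, c, hc, hc0, rfl⟩
      exact ⟨e, a, by rwa [zero_add], c, hc, hc0, rfl⟩) z l hl hz hz0)
    P (mod_of_admissible p k _ P hP) (fun i => algebraMap A K (b i)) w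
    (fun i => Pool.Agent.Run7.h360.TA.am_ne' (hb0 i))
    (fun i => Pool.Agent.Run7.h360.TA.GF.of_mem (hbw i)) hgen hPm
  obtain ⟨T, I, hT, hI, M, hFr, hM⟩ := hMod (Fin m) (fun i => algebraMap A K (b i))
    (fun i => ⟨i, rfl⟩) (fun i => Pool.Agent.Run7.h360.TA.am_ne' (hb0 i))
  have hBft : Algebra.FiniteType k B := Algebra.FiniteType.trans (S := A) inferInstance inferInstance
  have hkBK : IsScalarTower k B K := IsScalarTower.of_algebraMap_eq fun x => by
    rw [IsScalarTower.algebraMap_apply k A K, IsScalarTower.algebraMap_apply A B K,
      IsScalarTower.algebraMap_apply k A B]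
  have hBint : ∀ x : B, IsIntegral (Algebra.adjoin k (Set.range fun i => algebraMap A B (b i))) x := by
    intro x
    have h1 : IsIntegral A x := Algebra.IsIntegral.isIntegral x
    have h2 : (Algebra.adjoin k (Set.range fun i => algebraMap A B (b i))) =
        (Algebra.adjoin k (Set.range b)).map (IsScalarTower.toAlgHom k A B) := by
      rw [AlgHom.map_adjoin, ← Set.range_comp]
      rfl
    rw [h2]
    have h3 : ∀ a : A, IsIntegral ((Algebra.adjoin k (Set.range b)).map
        (IsScalarTower.toAlgHom k A B)) (algebraMap A B a) := by
      intro a
      obtain ⟨f, hf, hfa⟩ := hint a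
      let g : Algebra.adjoin k (Set.range b) →+* (Algebra.adjoin k (Set.range b)).map
          (IsScalarTower.toAlgHom k A B) :=
        { toFun := fun y => ⟨algebraMap A B y, ⟨y, y.2, rfl⟩⟩
          map_one' := Subtype.ext (map_one _)
          map_mul' := fun _ _ => Subtype.ext (map_mul _ _ _)
          map_zero' := Subtype.ext (map_zero _)
          map_add' := fun _ _ => Subtype.ext (map_add _ _ _) }
      refine ⟨f.map g, hf.map g, ?_⟩
      rw [Polynomial.eval₂_map]
      have h4 : (algebraMap ((Algebra.adjoin k (Set.range b)).map
          (IsScalarTower.toAlgHom k A B)) B).comp g =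
          (algebraMap A B).comp (algebraMap (Algebra.adjoin k (Set.range b)) A) :=
        RingHom.ext fun y => rfl
      rw [h4, ← Polynomial.hom_eval₂, hfa, map_zero]
    have h5 : (algebraMap A B).IsIntegralElem x := h1
    have h6 : IsIntegral (integralClosure ((Algebra.adjoin k (Set.range b)).map
        (IsScalarTower.toAlgHom k A B)) B) x := by
      obtain ⟨f, hf, hfx⟩ := h5
      let g : A →+* integralClosure ((Algebra.adjoin k (Set.range b)).map
          (IsScalarTower.toAlgHom k A B)) B :=
        { toFun := fun a => ⟨algebraMap A B a, h3 a⟩
          map_one' := Subtype.ext (map_one _)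
          map_mul' := fun _ _ => Subtype.ext (map_mul _ _ _)
          map_zero' := Subtype.ext (map_zero _)
          map_add' := fun _ _ => Subtype.ext (map_add _ _ _) }
      refine ⟨f.map g, hf.map g, ?_⟩
      rw [Polynomial.eval₂_map]
      exact hfx
    exact isIntegral_trans _ h6
  have hinj : Function.Injective (algebraMap B K) := IsFractionRing.injective B K
  obtain ⟨T', I', hT', hI', ⟨M'⟩⟩ := LM_of_isBr M hFr B (fun i => algebraMap A B (b i))
    (fun i _ => by
      rw [← IsScalarTower.algebraMap_apply A B K]
      exact hM i) hBint
  intro K' _ _ _ W hV1 hV2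
  have hR : IsLocalRing R := IsLocalization.AtPrime.isLocalRing R q
  obtain ⟨B', h1, h2, P', hP', h3, h4, h5⟩ := Pool.Agent.W558.WT.uniformized_of_LM2 M' q (R := R)
    (K := K') W hV1 (fun r => (IsLocalRing.mem_maximalIdeal r).trans (hV2 r))
  exact ⟨B', h1, h2, P', hP', h3, (IsRegularLocalRing.iff_finrank_cotangentSpace _).2 h5.symm⟩

end Pool.Agent.Results.MP_3029eb_ag.TorusActionsAdmissible
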