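import Pool.Agent.Run7.h945.TR.RelCI

/-!
MP_3029eb_ag: ascent of local uniformization, at all valuations and in all dimensions, from a domain
`B` of characteristic `p` to the quotients of the affine spaces `A ^ r` over `B` by finite families
of group schemes of order `p` which act by translations with arbitrary coefficients.

The group schemes are `Spec B[θ] / (θ ^ p - b i * θ)`, and act by `z ↦ z + θ * w i`, with arbitrary
elements `b i` of `B` and arbitrary vectors `w i` with coordinates in `B`, `i < m`. For `b i = 1` the
quotient is the quotient by the elementary abelian `p`-group of the translations by the `w i`, for
`b i = 0` the quotient by the commuting vector fields `∑ j, w i j * ∂/∂z j`; for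
`b i = a ^ (p - 1)` the second is a degeneration of the first. The quotient is not regular in
general: the `w i` can degenerate in arbitrary ways.

The hypothesis on `B`: the local rings of the finitely generated birational extensions of `B` admit
local uniformization. By the theorem of Cossart and Piltant (see the problem file) it is satisfied
by all quasi-excellent domains `B` of characteristic `p` and dimension at most three. So in this case
the local rings of the quotients, of dimension at most `3 + r`, admit local uniformization for all
`r`, `m`, `b` and `w`; and the same is true for all domains `A` between the ring of invariants and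
its normalization. (For surfaces over perfect fields with smooth projective models see
`MP_b525bf_ag.SurfaceTranslations`.)

The proof. Let `V` be a valuation ring of the field of fractions of `A` which is centred on the local
ring, and `V₀` its restriction to the field of fractions `K₀` of `B`. Over the valuation ring `V₀` the
ring of invariants is a polynomial ring: the coordinate `w 1 j` of minimal value is a pivot, the
invariants of the first group scheme are polynomials in
`z j ^ p - b 1 * (w 1 j) ^ (p - 1) * z j` and `z i - (w 1 i / w 1 j) * z j`, and the other group
schemes act on these coordinates by translations again (`good_rec`). The same is true over each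
subring of `V₀` which contains finitely many elements of `V₀` (`exists_tree`), hence over the local
ring `S` of the centre of `V₀` on a suitable finitely generated birational extension of `B`, and `S`
can be chosen regular by the hypothesis (`exists_base`). So the ring of invariants over `S` is a
regular ring, and it is contained in `V`, since the `z j` are integral over the ring of invariants
over `B`. It is a localization of a ring which is finitely generated over the local ring, and
normal (`rel_lu`).

helper945; the theorems that localizations of regular local rings are regular, and that regular domains
are normal, are from the library of helper98.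
-/

set_option autoImplicit false

open Pool.Agent.Run7.h945.TR

namespace Pool.Agent.Results.MP_3029eb_ag.TranslationQuotientsLU

/-- The local domain `R` admits local uniformization: for every valuation ring `V` of the fraction
field `K` of `R` centred on `R` there is a finitely generated `R`-algebra `B` in `V` whose
localization at the centre `P` of `V` is regular. -/
def AdmitsLocalUniformization (R : Type) [CommRing R] : Prop :=
  ∀ (K : Type) [Field K] [Algebra R K] [IsFractionRing R K] (V : ValuationSubring K),
    (∀ r : R, algebraMap R K r ∈ V) →
    (∀ r : R, r ∈ nonunits R ↔ V.valuation (algebraMap R K r) < 1) →
    ∃ B : Subalgebra R K, B.FG ∧ (∀ b : B, (b : K) ∈ V) ∧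
      ∃ P : Ideal B, ∃ (_ : P.IsPrime),
        (∀ b : B, b ∈ P ↔ V.valuation (b : K) < 1) ∧
        IsRegularLocalRing (Localization.AtPrime P)

/-- The local rings of the finitely generated birational extensions of the domain `B` (the
finitely generated `B`-subalgebras `C` of its field of fractions) admit local uniformization. By the
theorem of Cossart and Piltant this is true for the quasi-excellent domains of characteristic `p` and
dimension at most three. -/
def BirationalModelsUniformizable (B : Type) [CommRing B] [IsDomain B] : Prop :=
  ∀ C : Subalgebra B (FractionRing B), C.FG → ∀ (P : Ideal C) [P.IsPrime],
    AdmitsLocalUniformization (Localization.AtPrime P)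

section defs

variable {B : Type} [CommRing B] {m r : ℕ}

/-- The homomorphism `f (z) ↦ f (z + θ * w)` from the polynomial ring `B[z]` in `z 1, ..., z r` to
`B[z][θ]`. -/
noncomputable def shift (w : Fin r → B) :
    MvPolynomial (Fin r) B →ₐ[B] Polynomial (MvPolynomial (Fin r) B) :=
  MvPolynomial.aeval fun j => Polynomial.C (MvPolynomial.X j) +
    Polynomial.C (MvPolynomial.C (w j)) * Polynomial.X

/-- The polynomial `f` in `z` over `B` is invariant under the action `z ↦ z + θ * w` of the group
scheme with the coordinate ring `B[θ] / (θ ^ p - b * θ)`: modulo `θ ^ p - b * θ` one has
`f (z + θ * w) = f (z)`. -/
def IsInvariant (p : ℕ) (b : B) (w : Fin r → B) (f : MvPolynomial (Fin r) B) : Prop :=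
  Polynomial.X ^ p - Polynomial.C (MvPolynomial.C b) * Polynomial.X ∣ shift w f - Polynomial.C f

/-- The algebra of the polynomials in `z` over `B` which are invariant under the actions
`z ↦ z + θ * w i` of the group schemes with the coordinate rings `B[θ] / (θ ^ p - b i * θ)`. -/
noncomputable def invariants (p : ℕ) (b : Fin m → B) (w : Fin m → Fin r → B) :
    Subalgebra B (MvPolynomial (Fin r) B) where
  carrier := {f | ∀ i, IsInvariant p (b i) (w i) f}
  mul_mem' := fun hf hg i => Inv.mul (hf i) (hg i)
  add_mem' := fun hf hg i => Inv.add (hf i) (hg i)
  algebraMap_mem' := fun a i => Inv.const p (b i) (w i) a

end defs

/-- Let `B` be a domain of characteristic `p` such that the local rings of its finitely generated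
birational extensions admit local uniformization, for example any quasi-excellent domain of
characteristic `p` and dimension at most three. Let `C` be the ring of the polynomials in
`z 1, ..., z r` over `B` which are invariant under the actions `z ↦ z + θ * w i` of the group schemes
`Spec B[θ] / (θ ^ p - b i * θ)`, for arbitrary `b i` in `B` and `w i` in `B ^ r`, `i < m`. Let `A` be
a domain which contains `C`, is integral over `C` and has the same field of fractions (for example
`A = C`, or the normalization of `C`). Then every local ring `R` of `A`, the localization at a prime
ideal `q`, admits local uniformization. -/
theorem result (p : ℕ) [Fact p.Prime] (B : Type) [CommRing B] [IsDomain B] [CharP B p]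
    (hB : BirationalModelsUniformizable B) (m r : ℕ) (b : Fin m → B) (w : Fin m → Fin r → B)
    (A : Type) [CommRing A] [IsDomain A] [Algebra (invariants p b w) A]
    (hinj : Function.Injective (algebraMap (invariants p b w) A))
    (hint : ∀ a : A, IsIntegral (invariants p b w) a)
    (hbir : ∀ a : A, ∃ x y : invariants p b w, y ≠ 0 ∧
      algebraMap (invariants p b w) A y * a = algebraMap (invariants p b w) A x)
    (q : Ideal A) [q.IsPrime] (R : Type) [CommRing R] [Algebra A R]
    [IsLocalization.AtPrime R q] : AdmitsLocalUniformization R := by
  let l : List (B × (Fin r → B)) := List.ofFn fun i => (b i, w i)
  have heq : CI B p l = invariants p b w := by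
    ext f
    change (∀ x ∈ l, Inv p x.1 x.2 f) ↔ (∀ i, IsInvariant p (b i) (w i) f)
    rw [List.forall_mem_ofFn_iff]
    rfl
  have key : ∀ (D : Subalgebra B (MvPolynomial (Fin r) B)) [Algebra D A],
      CI B p l = D → Function.Injective (algebraMap D A) → (∀ a : A, IsIntegral D a) →
      (∀ a : A, ∃ x y : D, y ≠ 0 ∧ algebraMap D A y * a = algebraMap D A x) →
      AdmitsLocalUniformization R := by
    rintro D _ rfl h1 h2 h3
    exact lu_translations (p := p) (B := B) (K0 := FractionRing B) hB l
      (algebraMap (CI B p l) A) h1 h2 h3 q R
  exact key _ heq hinj hint hbir

end Pool.Agent.Results.MP_3029eb_ag.TranslationQuotientsLU
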